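import Pool.Agent.NH27.E.Cover
import Pool.Agent.NH27.E.Cyc
import Pool.Agent.NH27.E.Seid
import Pool.Agent.NH27.E.Two
import Pool.Agent.NH27.E.Three
import Pool.Agent.NH27.E.Four
import Pool.Agent.NH27.E.Lift
import Pool.Agent.NH27.E.Ngt
import Pool.Agent.NH27.E.Curve
import Pool.Agent.NH27.E.None
import Pool.Agent.NH27.E.Pt
import Pool.Agent.NH27.E.Mer
import Pool.Agent.NH27.E.Ent
import Pool.Agent.NH27.E.Kob

/-!
MP_c69980_ag, Q1: cyclic covers of complete intersections with nonpositive canonical class satisfy
none of the five conditions.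

Let `V` be an intersection of hypersurfaces of degrees `e 1, ..., e c` in `P^n`, and let `X` be an
irreducible component of the cyclic cover `z ^ q = Φ (x)` of `V`, where `Φ` is a form of degree `d`
divisible by `q`: arbitrary singularities and any dimension are allowed, and `V` and `Φ = 0` need not
be reduced. Let `q` be even and `2 q ≤ d`, or divisible by `3` or by `4` and `q ≤ d`. Let
`∑ e j + d ≤ n + 1 + d / q`: this means that the canonical class of the cover, given by the
adjunction formula, is not positive. Examples: double covers of projective space branched over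
hypersurfaces of degree at most `2 n + 2` (and at least `4`).

Theorem: every projective variety `U` birational to `X` satisfies none of the conditions 1 to 5; so
the conjecture is true for `U`. For every proper closed subset `Δ` of `U`:
(1) the Kobayashi pseudodistance of `U` vanishes for two different points, not both in `Δ`;
(2) there is an entire curve in `U`, not in `Δ`;
(3) for some smooth projective curve `Y`, some `y ∈ Y` and `x ∈ U ∖ Δ` there are infinitely many
    morphisms `f : Y → U` with `f (y) = x`;
(4) `U` is not of general type;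
(5) for some smooth projective curve, the degrees of the morphisms from the curve to `U` whose images
    are not contained in `Δ` are not bounded.

We use affine coordinates for `X`: `F j` and `Φ` are polynomials in `x 1, ..., x n` of degree at most
`e j` and `d`, the component is the prime ideal `P`, and `z` is the variable with the number `0`. The
variety `U` in `P^N` has the generic point `y`, whose ratios generate the function field `K` of `X`,
and its ideal `homIdeal y` is generated by the forms which vanish at `y`. The definitions of the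
conditions are in `Pool/Agent/NH27/E/Stm2.lean`. The closed subset `Δ` is given by a form `G` which
does not vanish on `U`.
-/

set_option autoImplicit false

namespace Pool.Agent.Results.MP_c69980_ag.CyclicCovers

open MvPolynomial FF Pool.Agent.W602.GT Pool.Agent.NH27.E Pool.Agent.W603.LV

/-- The equations `z ^ q = Φ (x)`, `F j (x) = 0` of the cyclic cover. The variable number `0` is `z`,
the other variables are `x 1, ..., x n`. -/
noncomputable def equations {c n : ℕ} (F : Fin c → MvPolynomial (Fin n) ℂ)
    (Φ : MvPolynomial (Fin n) ℂ) (q : ℕ) : Fin (c + 1) → MvPolynomial (Fin (n + 1)) ℂ :=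
  Fin.cons (X 0 ^ q - rename Fin.succ Φ) fun j => rename Fin.succ (F j)

/-- `X` is an irreducible component of the cyclic cover, not contained in `z = 0`, with the prime
ideal `P`, the function field `K`, and the generic point `x`. -/
structure Cover {c n : ℕ} (F : Fin c → MvPolynomial (Fin n) ℂ) (Φ : MvPolynomial (Fin n) ℂ)
    (q : ℕ) {K : Type} [Field K] [Algebra ℂ K] (P : Ideal (MvPolynomial (Fin (n + 1)) ℂ))
    (x : Fin (n + 1) → K) : Prop where
  /-- `P` is a minimal prime ideal over the equations -/
  component : P ∈ (Ideal.span (Set.range (equations F Φ q))).minimalPrimes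
  /-- the component is not contained in `z = 0` -/
  off : X 0 ∉ P
  /-- `x` generates the field `K` -/
  gen : IntermediateField.adjoin ℂ (Set.range x) = ⊤
  /-- `P` is the ideal of the relations of `x` -/
  rel : ∀ H : MvPolynomial (Fin (n + 1)) ℂ, aeval x H = 0 ↔ H ∈ P

/-- `y` is the generic point of a closed subvariety of `P^N` birational to `X`, in homogeneous
coordinates: the ratios of the `y j` generate the function field `K`. -/
def Model {K : Type} [Field K] [Algebra ℂ K] {N : ℕ} (y : Fin (N + 1) → K) : Prop :=
  y ≠ 0 ∧ coords ℂ y = ⊤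

theorem canDeg_nonpos {L : Type} [Field L] [Algebra ℂ L] [IsFF ℂ L] {D : Derivation ℂ L L}
    (hD : D ≠ 0) (h : ∀ P : Place ℂ L, DerReg P D) : canDeg ℂ L ≤ 0 := by
  rw [canDeg_eq hD, neg_nonpos]
  refine finsum_nonneg fun P => ?_
  rcases h P (unif P) (Or.inr (by rw [ord_unif]; norm_num)) with h1 | h1
  · unfold vo
    rw [h1, P.ord_zero]
  · exact h1

/-- **Theorem.** Let `q ≥ 1` divide `d`, let `q` be even and `2 q ≤ d`, or `3 ∣ q` and `q ≤ d`, or
`4 ∣ q` and `q ≤ d`. Let `F j` and `Φ` be polynomials in `n` variables of degree at most `e j` and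
`d`, where `∑ e j + d ≤ n + 1 + d / q`. Let `X` be an irreducible component of `F j (x) = 0`,
`z ^ q = Φ (x)`, not contained in `z = 0`, with the function field `K`. Then the projective varieties
`U` with the function field `K` satisfy none of the conditions 1 to 5. -/
theorem result {n c q d : ℕ} {F : Fin c → MvPolynomial (Fin n) ℂ} {e : Fin c → ℕ}
    {Φ : MvPolynomial (Fin n) ℂ} (hF : ∀ j, (F j).totalDegree ≤ e j) (hΦ : Φ.totalDegree ≤ d)
    (hq : 0 < q) (hqd : q ∣ d) (ht : 2 ∣ q ∧ 2 * q ≤ d ∨ 3 ∣ q ∧ q ≤ d ∨ 4 ∣ q ∧ q ≤ d)
    (hcount : ∑ j, e j + d ≤ n + 1 + d / q) {K : Type} [Field K] [Algebra ℂ K]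
    {P : Ideal (MvPolynomial (Fin (n + 1)) ℂ)} {x : Fin (n + 1) → K} (hX : Cover F Φ q P x)
    {N : ℕ} {y : Fin (N + 1) → K} (hy : Model y) :
    ¬ PseudoKobayashi (homIdeal y) ∧ ¬ PseudoBrody (homIdeal y) ∧
      ¬ FinitePointedMaps (homIdeal y) ∧ (∀ w, ¬ GeneralType ℂ K w) ∧
      ¬ BoundedModulo (homIdeal y) := by
  have hS : S_SEID := seid_proof
  have hCYC : S_CYC := cyc (two hS) (three hS) (four hS)
  have hCURVE : S_CURVE := Pool.Agent.NH27.E.Curve.curve_proof
  have hP : IsCover F Φ q P x := ⟨hX.component, hX.off, hX.gen, hX.rel⟩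
  obtain ⟨h1, h2, h3, h5⟩ := none_of_dense (η := y) pt_proof mer_proof ent_proof kob_proof
    fun R hR hne => by
      obtain ⟨L, _, _, _, D, f, hD0, hD, hf0, hf, hfb, hfR⟩ := dense_cover hCYC hCURVE hF hΦ hq hqd
        ht hcount hP hy.1 hy.2 hR hne
      exact ⟨L, _, _, inferInstance, f, canDeg_nonpos hD0 hD, hf0, hf, hfb, hfR⟩
  exact ⟨h1, h2, h3, not_gt_cover hCYC hCURVE (ngt lift_proof) hF hΦ hq hqd ht hcount hP, h5⟩

end Pool.Agent.Results.MP_c69980_ag.CyclicCovers
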