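import Pool.Agent.NH29.GK.Fin
import Pool.Agent.NH29.GK.Bm
import Pool.Agent.NH29.GK.Gt
import Pool.Agent.NH29.GN.Fin3
import Pool.Agent.NH27.S.Log

/-!
MP_c69980_ag, Q1: the conditions 1, 2, 3, 5, with `Δ = ∅`, for the complements of `n + 2` or more
Zariski-general hypersurface sections of an arbitrary projective variety of dimension `n`, and of
its general complete intersections; all five conditions if the variety is smooth, or if the
hypersurface sections are very general.

Let `k` be a subfield of `ℂ` (for instance `ℚ`, or `ℂ`). Let `V` be a closed subset of projective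
space, given by forms with coefficients in `k`, of dimension at most `n`: there are `n + 1` linear
forms over `k` without common zero on `V`. Let `q ≥ n + 2`, and let `d_1, …, d_q` be positive
integers, such that at most `2 (q - n - 1)` of them are equal to `1` (for `q = n + 2`: at most two of
them), or such that for `1 ≤ m ≤ n` the sum of any `q - 1 - m` of them is at least `n - m + n / m`.

THEOREM. There are a nonzero polynomial `Φ`, with coefficients in `k`, in the coefficients of `q`
forms of degrees `d_1, …, d_q`, and a number `c`, with the following property. Let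
`F = (F_1, …, F_q)` be complex forms of degrees `d_1, …, d_q` such that `Φ (F) ≠ 0`. Let `C` be a
proper subset of `{1, …, q}`, and let `U` be the set of the points of `V` at which `F_c = 0` for
`c ∈ C` and `F_b ≠ 0` for `b ∉ C`. (For `C = ∅` it is the complement in `V` of the union of the
hypersurfaces.)
(1) `U` is Kobayashi hyperbolic, and hyperbolically embedded in projective space: the Kobayashi
    pseudodistance of `U` is at least a positive constant times the distance of projective space
    (the distance of the orthogonal projections to the two lines of `ℂ ^ (M + 1)`).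
(2) All entire curves in `U` are constant.
(3) For every variety `Y` and all points `y` of `Y` and `x` of `U`, there are only finitely many
    morphisms from `Y` to `U` which map `y` to `x`.
(5) `U` is bounded: for every smooth affine curve, the morphisms to `U` form a bounded family; more
    precisely, the degree of a morphism from a smooth curve of genus `g` with `r` points at
    infinity to `U` is at most `c max (2 g - 2 + r, 0)`, for all `F` and `C`.
(4) If the coefficients of `F` are algebraically independent over `k` (very general forms), then all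
    closed subvarieties of `U` of positive dimension, in particular the components of `U`, are of
    log general type. (Then `Φ (F) ≠ 0`, so all five conditions hold.)
(4') If `V` is smooth, of dimension `n`, then there is a nonzero complex polynomial `Ψ` in the
    coefficients such that for all `F` with `Ψ (F) ≠ 0` and all `C` the components of `U` are of log
    general type if `w = n - |C| > 0` (`w` is the dimension of `U`). So all five conditions hold for
    all `F` with `Φ (F) Ψ (F) ≠ 0`.

Here `U` is affine, since at least one `F_b ≠ 0`, with the coordinate ring `CoordRing V F d C`,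
generated by the quotients of the monomials by the product of the `F_b`, `b ∉ C`.
-/

set_option autoImplicit false

namespace Pool.Agent.Results.MP_c69980_ag.GeneralComplements

open MvPolynomial FF
open Pool.Agent.NH29.GK
open Pool.Agent.W603.LV Pool.Agent.W603.PV Pool.Agent.W602.GT

variable {k : Type} [Field k] [Algebra k ℂ] {M q : ℕ}

/-- The closed subset of the projective space of dimension `M` given by the forms in `V` has
dimension at most `n`: there are `n + 1` linear forms without common zero on it. -/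
def DimLE (V : Set (MvPolynomial (Fin (M + 1)) k)) (n : ℕ) : Prop :=
  ∃ ℓ : Fin (n + 1) → MvPolynomial (Fin (M + 1)) k, (∀ j, (ℓ j).IsHomogeneous 1) ∧
    ∀ y : Fin (M + 1) → ℂ, (∀ H ∈ V, aeval y H = 0) → (∀ j, aeval y (ℓ j) = 0) → y = 0

/-- The indices of the coefficients of `q` forms of degrees `d i` in `M + 1` variables. -/
abbrev Index (M : ℕ) {q : ℕ} (d : Fin q → ℕ) : Type :=
  (i : Fin q) × {β : Fin (M + 1) →₀ ℕ // β.degree = d i}

/-- `F` is a family of forms of degrees `d i`, and `Φ (F) ≠ 0`. -/
def General {d : Fin q → ℕ} (Φ : MvPolynomial (Index M d) k)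
    (F : Fin q → MvPolynomial (Fin (M + 1)) ℂ) : Prop :=
  (∀ i, (F i).IsHomogeneous (d i)) ∧ aeval (fun s : Index M d => coeff s.2.1 (F s.1)) Φ ≠ 0

/-- Condition 1: the Kobayashi pseudodistance of `U` is at least a positive constant times the
distance of projective space; in particular it is a distance. -/
def Hyperbolic (U : Set (Fin (M + 1) → ℂ)) : Prop :=
  (∃ κ : ℝ, 0 < κ ∧ ∀ x ∈ U, ∀ y ∈ U,
    ENNReal.ofReal (κ * dist (Phi x) (Phi y)) ≤ kobayashi U x y) ∧
  ∀ x ∈ U, ∀ y ∈ U, ¬ Same x y → 0 < kobayashi U x y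

/-- Condition 2: all entire curves in `U` are constant. -/
def NoEntireCurves (U : Set (Fin (M + 1) → ℂ)) : Prop :=
  ∀ f : ℂ → Fin (M + 1) → ℂ, Differentiable ℂ f → (∀ z, f z ∈ U) → ∀ z w, Same (f z) (f w)

/-- The coordinate ring of the affine variety `U`. -/
def Coordinates (V : Set (MvPolynomial (Fin (M + 1)) k))
    (F : Fin q → MvPolynomial (Fin (M + 1)) ℂ) (d : Fin q → ℕ) (C : Finset (Fin q)) : Type :=
  CoordRing V F d C

noncomputable instance (V : Set (MvPolynomial (Fin (M + 1)) k))
    (F : Fin q → MvPolynomial (Fin (M + 1)) ℂ) (d : Fin q → ℕ) (C : Finset (Fin q)) :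
    CommRing (Coordinates V F d C) :=
  (CoordRing V F d C).toCommRing

noncomputable instance (V : Set (MvPolynomial (Fin (M + 1)) k))
    (F : Fin q → MvPolynomial (Fin (M + 1)) ℂ) (d : Fin q → ℕ) (C : Finset (Fin q)) :
    Algebra ℂ (Coordinates V F d C) :=
  (CoordRing V F d C).algebra

/-- Condition 3: for every variety `Y` and all points `y` of `Y` and `x` of `U`, there are only
finitely many morphisms from `Y` to `U` which map `y` to `x`. -/
def PointedMapsFinite (V : Set (MvPolynomial (Fin (M + 1)) k))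
    (F : Fin q → MvPolynomial (Fin (M + 1)) ℂ) (d : Fin q → ℕ) (C : Finset (Fin q)) : Prop :=
  Pool.Agent.Y193.FinitePointedMaps (Coordinates V F d C) ⊤

/-- Condition 5: for every smooth affine curve, the family of the morphisms to `U` is bounded. -/
def Bounded (V : Set (MvPolynomial (Fin (M + 1)) k)) (F : Fin q → MvPolynomial (Fin (M + 1)) ℂ)
    (d : Fin q → ℕ) (C : Finset (Fin q)) : Prop :=
  Pool.Agent.Y193.BoundedModulo (Coordinates V F d C) ⊤

/-- The forms in `V` vanish at the point `x`, with coordinates in an extension `E` of `ℂ`. -/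
def OnV (V : Set (MvPolynomial (Fin (M + 1)) k)) {E : Type} [Field E] [Algebra ℂ E]
    (x : Fin (M + 1) → E) : Prop :=
  ∀ H ∈ V, aeval x (map (algebraMap k ℂ) H) = 0

/-- The point `x` of projective space, with coordinates in an extension `E` of `ℂ`, is on `U`. -/
def OnU (V : Set (MvPolynomial (Fin (M + 1)) k)) (F : Fin q → MvPolynomial (Fin (M + 1)) ℂ)
    (C : Finset (Fin q)) {E : Type} [Field E] [Algebra ℂ E] (x : Fin (M + 1) → E) : Prop :=
  x ≠ 0 ∧ OnV V x ∧ (∀ c ∈ C, aeval x (F c) = 0) ∧ ∀ b, b ∉ C → aeval x (F b) ≠ 0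

/-- The point `x` over a function field `E` of one variable is integral outside of the finite set
`S` of places: the corresponding map from the curve to projective space maps only the points in `S`
to the hypersurfaces `F b = 0`, `b ∉ C`. -/
def IsIntegral (F : Fin q → MvPolynomial (Fin (M + 1)) ℂ) (d : Fin q → ℕ) (C : Finset (Fin q))
    {E : Type} [Field E] [Algebra ℂ E] (S : Finset (Place ℂ E)) (x : Fin (M + 1) → E) : Prop :=
  ∀ b, b ∉ C → ∀ Q ∉ S, Q.ord (aeval x (F b)) = d b * pord Q x

/-- The degree of the maps from curves to `U`, that is, the height of the points `x` of `U` over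
function fields `E` of one variable, is at most `c max (2 g - 2 + r, 0)`, where `r` is the number of
elements of a finite set `S` of places such that `x` is integral outside of `S`. -/
def DegreeLE (V : Set (MvPolynomial (Fin (M + 1)) k)) (F : Fin q → MvPolynomial (Fin (M + 1)) ℂ)
    (d : Fin q → ℕ) (C : Finset (Fin q)) (c : ℕ) : Prop :=
  ∀ (E : Type) [Field E] [Algebra ℂ E] [IsFF ℂ E] (S : Finset (Place ℂ E)) (x : Fin (M + 1) → E),
    OnU V F C x → IsIntegral F d C S x → pht ℂ x ≤ c * max (canDeg ℂ E + S.card) 0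

/-- The conditions 1, 2, 3, 5, with `Δ = ∅`, and the bound for the degrees. -/
def Conditions (V : Set (MvPolynomial (Fin (M + 1)) k)) (F : Fin q → MvPolynomial (Fin (M + 1)) ℂ)
    (d : Fin q → ℕ) (C : Finset (Fin q)) (c : ℕ) : Prop :=
  Hyperbolic (Pts V F C) ∧ NoEntireCurves (Pts V F C) ∧ PointedMapsFinite V F d C ∧
    Bounded V F d C ∧ DegreeLE V F d C c

/-- The place `Q` has its centre on the boundary of `U`. -/
def Boundary (F : Fin q → MvPolynomial (Fin (M + 1)) ℂ) (d : Fin q → ℕ) (C : Finset (Fin q))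
    {L : Type} [Field L] [Algebra ℂ L] (x : Fin (M + 1) → L) (Q : Place ℂ L) : Prop :=
  ∃ b, b ∉ C ∧ d b * pord Q x < Q.ord (aeval x (F b))

/-- Condition 4 for the closed subvarieties of dimension `w` of `U`: they are of log general type.
`L` is the function field of the subvariety (or a finite extension of it), and `x` its generic point,
in homogeneous coordinates whose ratios generate the field `coords ℂ x`. -/
def LogGeneral (V : Set (MvPolynomial (Fin (M + 1)) k)) (F : Fin q → MvPolynomial (Fin (M + 1)) ℂ)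
    (d : Fin q → ℕ) (C : Finset (Fin q)) (w : ℕ) : Prop :=
  ∀ (L : Type) [Field L] [Algebra ℂ L] (x : Fin (M + 1) → L), Algebra.trdeg ℂ L = w →
    Algebra.IsAlgebraic (coords ℂ x) L → OnU V F C x → LogGeneralType ℂ L w (Boundary F d C x)

/-- The coefficients of the forms are algebraically independent over `k`. -/
def VeryGeneral (k : Type) [Field k] [Algebra k ℂ] (d : Fin q → ℕ)
    (F : Fin q → MvPolynomial (Fin (M + 1)) ℂ) : Prop :=
  AlgebraicIndependent k fun s : Index M d => coeff s.2.1 (F s.1)

/-- The gradient of the form `H` at the point `p`. -/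
noncomputable def gradient (p : Fin (M + 1) → ℂ) (H : MvPolynomial (Fin (M + 1)) k) :
    Fin (M + 1) → ℂ :=
  fun i => aeval p (pderiv i H)

/-- The dimension of the span of the gradients of the forms in `V` at the point `p`. -/
noncomputable def gradientRank (V : Set (MvPolynomial (Fin (M + 1)) k)) (p : Fin (M + 1) → ℂ) : ℕ :=
  Module.finrank ℂ (Submodule.span ℂ (gradient p '' V))

/-- The point `p` is on the closed subset of projective space given by the forms in `V`. -/
def Pt (V : Set (MvPolynomial (Fin (M + 1)) k)) (p : Fin (M + 1) → ℂ) : Prop :=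
  p ≠ 0 ∧ ∀ H ∈ V, aeval p H = 0

/-- The closed set given by the forms in `V` is smooth, of dimension `n` (Jacobian criterion: at its
points, the gradients of the forms in `V` span a space of dimension at least `M - n`). -/
def Smooth (V : Set (MvPolynomial (Fin (M + 1)) k)) (n : ℕ) : Prop :=
  ∀ p : Fin (M + 1) → ℂ, Pt V p → M ≤ n + gradientRank V p

/-- The conclusion of the theorem. -/
def Conclusion (V : Set (MvPolynomial (Fin (M + 1)) k)) (d : Fin q → ℕ) (n : ℕ) : Prop :=
  -- (1), (2), (3), (5); (4) for very general forms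
  (∃ (Φ : MvPolynomial (Index M d) k) (c : ℕ), Φ ≠ 0 ∧
    ∀ F : Fin q → MvPolynomial (Fin (M + 1)) ℂ, General Φ F →
      ∀ C : Finset (Fin q), C ≠ Finset.univ → Conditions V F d C c ∧
        (VeryGeneral k d F → ∀ w, 0 < w → LogGeneral V F d C w)) ∧
  -- (4) for general forms, if `V` is smooth
  (Smooth V n → ∃ Ψ : MvPolynomial (Index M d) ℂ, Ψ ≠ 0 ∧
    ∀ F : Fin q → MvPolynomial (Fin (M + 1)) ℂ, General Ψ F →
      ∀ (C : Finset (Fin q)) (w : ℕ), 0 < w → w + C.card = n → LogGeneral V F d C w)

section Proof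

open Pool.Agent.NH29.GN (Idx fv val Num2)

theorem fv_eq {d : Fin q → ℕ} {F : Fin q → MvPolynomial (Fin (M + 1)) ℂ}
    (hF : ∀ i, (F i).IsHomogeneous (d i)) {E : Type} [Field E] [Algebra ℂ E]
    (x : Fin (M + 1) → E) (b : Fin q) :
    fv (fun s : Idx M d => coeff s.2.1 (F s.1)) x b = aeval x (F b) := by
  conv_rhs => rw [← form_coeff hF b]
  unfold Pool.Agent.NH29.GK.form fv Pool.Agent.NH29.GN.val
  rw [map_sum]
  refine Finset.sum_congr rfl fun β _ => ?_
  rw [aeval_monomial, Finsupp.prod_fintype _ _ fun i => pow_zero _]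

theorem sum_few {n : ℕ} {d : Fin q → ℕ} (hd : ∀ i, 1 ≤ d i) (hq : n + 2 ≤ q)
    (h : (Finset.univ.filter fun i => d i = 1).card ≤ 2 * (q - n - 1)) :
    2 * n + 1 ≤ ∑ b, d b := by
  classical
  have h1 : ∑ b, (d b + if d b = 1 then 1 else 0) =
      ∑ b, d b + (Finset.univ.filter fun i => d i = 1).card := by
    rw [Finset.sum_add_distrib, Finset.card_filter]
  have h2 : ∑ _b : Fin q, 2 ≤ ∑ b, (d b + if d b = 1 then 1 else 0) := by
    refine Finset.sum_le_sum fun b _ => ?_
    have := hd b
    split_ifs <;> omega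
  rw [Finset.sum_const, Finset.card_univ, Fintype.card_fin, smul_eq_mul] at h2
  omega

theorem sum_sum {n : ℕ} {d : Fin q → ℕ} (hd : ∀ i, 1 ≤ d i) (hq : n + 2 ≤ q)
    (h : ∀ m, 1 ≤ m → m ≤ n → ∀ B : Finset (Fin q), B.card = q - 1 - m →
      n + m * (n - m) ≤ m * ∑ b ∈ B, d b) : 2 * n + 1 ≤ ∑ b, d b := by
  classical
  rcases Nat.eq_zero_or_pos n with rfl | hn
  · have h1 : ∑ _b : Fin q, 1 ≤ ∑ b, d b := Finset.sum_le_sum fun b _ => hd b
    rw [Finset.sum_const, Finset.card_univ, Fintype.card_fin, smul_eq_mul] at h1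
    omega
  · obtain ⟨B, -, hB⟩ := Finset.exists_subset_card_eq
      (s := (Finset.univ : Finset (Fin q))) (n := q - 2) (by
        rw [Finset.card_univ, Fintype.card_fin]; omega)
    have h1 := h 1 le_rfl hn B (by omega)
    have h2 : ∑ b ∈ B, d b + ∑ b ∈ Bᶜ, d b = ∑ b, d b := Finset.sum_add_sum_compl B _
    have h3 : ∑ _b ∈ Bᶜ, 1 ≤ ∑ b ∈ Bᶜ, d b := Finset.sum_le_sum fun b _ => hd b
    rw [Finset.sum_const, Finset.card_compl, Fintype.card_fin, smul_eq_mul] at h3
    omega

/-- Finitely many of the forms suffice. -/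
theorem smooth_part {n : ℕ} {V : Set (MvPolynomial (Fin (M + 1)) k)}
    (hV : ∀ H ∈ V, ∃ e, H.IsHomogeneous e) {d : Fin q → ℕ} (hd : ∀ i, 1 ≤ d i)
    (hq : n + 2 ≤ q) (hs : Smooth V n) :
    ∃ Ψ : MvPolynomial (Index M d) ℂ, Ψ ≠ 0 ∧
      ∀ F : Fin q → MvPolynomial (Fin (M + 1)) ℂ, General Ψ F →
        ∀ (C : Finset (Fin q)) (w : ℕ), 0 < w → w + C.card = n → LogGeneral V F d C w := by
  classical
  obtain ⟨s, hsV, hsp⟩ := (Submodule.fg_span_iff_fg_span_finset_subset V).1
    (IsNoetherian.noetherian (Ideal.span V : Ideal (MvPolynomial (Fin (M + 1)) k)))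
  have key : ∀ p : Fin (M + 1) → ℂ, (∀ H ∈ s, aeval p H = 0) →
      ∀ H ∈ Ideal.span (s : Set (MvPolynomial (Fin (M + 1)) k)), aeval p H = 0 ∧
        (fun i => aeval p (pderiv i H)) ∈ Submodule.span ℂ (Set.range fun j : Fin s.card =>
          fun i => aeval p (pderiv i (s.equivFin.symm j : MvPolynomial (Fin (M + 1)) k))) := by
    intro p hp H hH
    refine Submodule.span_induction (p := fun H _ => aeval p H = 0 ∧
        (fun i => aeval p (pderiv i H)) ∈ Submodule.span ℂ (Set.range fun j : Fin s.card =>
          fun i => aeval p (pderiv i (s.equivFin.symm j : MvPolynomial (Fin (M + 1)) k))))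
      ?_ ?_ ?_ ?_ hH
    · intro G hG
      refine ⟨hp G hG, Submodule.subset_span ⟨s.equivFin ⟨G, hG⟩, ?_⟩⟩
      simp
    · simp only [map_zero, true_and]
      exact Submodule.zero_mem _
    · intro G G' _ _ h1 h2
      refine ⟨by rw [map_add, h1.1, h2.1, add_zero], ?_⟩
      have := Submodule.add_mem _ h1.2 h2.2
      have e : (fun i => aeval p (pderiv i (G + G'))) =
          (fun i => aeval p (pderiv i G)) + fun i => aeval p (pderiv i G') :=
        _root_.funext fun i => by simp
      rw [e]
      exact this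
    · intro a G _ h1
      refine ⟨by rw [smul_eq_mul, map_mul, h1.1, mul_zero], ?_⟩
      have := Submodule.smul_mem _ (aeval p a) h1.2
      have e : (fun i => aeval p (pderiv i (a • G))) =
          aeval p a • fun i => aeval p (pderiv i G) :=
        _root_.funext fun i => by simp [Derivation.leibniz, h1.1]
      rw [e]
      exact this
  obtain ⟨Ψ, hΨ, h1⟩ := Pool.Agent.NH27.S.log_general (n := n)
    (H := fun j => map (algebraMap k ℂ) (s.equivFin.symm j : MvPolynomial (Fin (M + 1)) k))
    (fun j => by
      obtain ⟨e, he⟩ := hV _ (hsV (s.equivFin.symm j).2)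
      exact ⟨e, he.map _⟩)
    (fun p hp hpH => by
      have h2 : ∀ H ∈ s, aeval p H = 0 := by
        intro H hH
        have := hpH (s.equivFin ⟨H, hH⟩)
        simp only [Equiv.symm_apply_apply, eval_map] at this
        rwa [aeval_def]
      have h3 : ∀ H ∈ V, H ∈ Ideal.span (s : Set (MvPolynomial (Fin (M + 1)) k)) := by
        intro H hH
        have : H ∈ Ideal.span V := Ideal.subset_span hH
        rw [Ideal.span, hsp] at this
        exact this
      refine (hs p ⟨hp, fun H hH => (key p h2 H (h3 H hH)).1⟩).trans (Nat.add_le_add_left ?_ n)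
      refine Submodule.finrank_mono (Submodule.span_le.2 ?_)
      rintro _ ⟨H, hH, rfl⟩
      have h4 := (key p h2 H (h3 H hH)).2
      have e : (fun (j : Fin s.card) (i : Fin (M + 1)) => aeval p (pderiv i
          (s.equivFin.symm j : MvPolynomial (Fin (M + 1)) k))) = fun j i => eval p (pderiv i
          (map (algebraMap k ℂ) (s.equivFin.symm j : MvPolynomial (Fin (M + 1)) k))) :=
        _root_.funext fun j => _root_.funext fun i => by rw [pderiv_map, eval_map, aeval_def]
      rw [e] at h4
      exact h4)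
    hd hq
  refine ⟨Ψ, hΨ, fun F hF C w hw hwC L _ _ x hwt hL ⟨hx1, hx2, hx3, hx4⟩ => ?_⟩
  exact h1 F hF.1 hF.2 C L w x hw hwC hwt hL hx1 (fun j => hx2 _ (hsV (s.equivFin.symm j).2))
    hx3 hx4

theorem conclusion {n : ℕ} {V : Set (MvPolynomial (Fin (M + 1)) k)}
    (hV : ∀ H ∈ V, ∃ e, H.IsHomogeneous e) (hn : DimLE V n) {d : Fin q → ℕ} (hd : ∀ i, 1 ≤ d i)
    (hq : n + 2 ≤ q) (h : ∀ C : Finset (Fin q), C ≠ Finset.univ → Num2 n d C)
    (hs : 2 * n + 1 ≤ ∑ b, d b) : Conclusion V d n := by
  classical
  have hk : CharZero k := (algebraMap k ℂ).charZero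
  obtain ⟨ℓ, hℓ, hℓ0⟩ := hn
  obtain ⟨Φ, c, hΦ, h1⟩ := main bm hV hℓ (Pool.Agent.NH29.GN.Fn.noZero_of_points hℓ0) (by omega)
    hd h
  refine ⟨⟨Φ, c, hΦ, fun F hF C hC => ?_⟩, smooth_part hV hd hq⟩
  obtain ⟨e1, e2, e3, e4, e5, e6⟩ := h1 F hF.1 hF.2 C hC
  refine ⟨⟨⟨e1, e2⟩, e3, e4, e5, ?_⟩, fun hvg => ?_⟩
  swap
  · intro w hw L _ _ x hwt hL ⟨hx1, hx2, hx3, hx4⟩
    refine gt k M n q V hV ℓ hℓ (Pool.Agent.NH29.GN.Fn.noZero_of_points hℓ0) d hd F hF.1 hvg C ?_
      L w x hw hwt hL hx1 hx2 hx3 hx4
    have h5 : ∑ c ∈ C, d c + ∑ b ∈ Cᶜ, d b = ∑ b, d b := Finset.sum_add_sum_compl C _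
    rw [Finset.sum_add_distrib]
    omega
  intro E _ _ _ S x ⟨hx, hxV, hxC, hxo⟩ hint
  refine e6 E S x ⟨hx, fun H hH => ?_, fun c hc => ?_, fun b hb => ?_, fun b hb Q hQ => ?_⟩
  · have h2 := hxV H hH
    rwa [aeval_def, eval₂_map] at h2
  · rw [fv_eq hF.1]
    exact hxC c hc
  · rw [fv_eq hF.1]
    exact hxo b hb
  · rw [fv_eq hF.1]
    exact hint b hb Q hQ

end Proof

theorem result {k : Type} [Field k] [Algebra k ℂ] {M n q : ℕ}
    -- the variety
    (V : Set (MvPolynomial (Fin (M + 1)) k)) (hV : ∀ H ∈ V, ∃ e, H.IsHomogeneous e)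
    (hn : DimLE V n)
    -- the degrees
    (d : Fin q → ℕ) (hd : ∀ i, 0 < d i) (hq : n + 2 ≤ q) :
    -- at most `2 (q - n - 1)` of the degrees are equal to `1`
    ((Finset.univ.filter fun i => d i = 1).card ≤ 2 * (q - n - 1) → Conclusion V d n) ∧
    -- for `1 ≤ m ≤ n`, the sum of any `q - 1 - m` of the degrees is at least `n - m + n / m`
    ((∀ m, 1 ≤ m → m ≤ n → ∀ B : Finset (Fin q), B.card = q - 1 - m →
      n + m * (n - m) ≤ m * ∑ b ∈ B, d b) → Conclusion V d n) :=
  ⟨fun h => conclusion hV hn hd hq (Pool.Agent.NH29.GN.Fn.num_of_few hd hq (by omega))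
      (sum_few hd hq h),
    fun h => conclusion hV hn hd hq
      (Pool.Agent.NH29.GN.Fn.num_of_sum hq fun m h1 h2 B hB => h m h1 h2 B (by omega))
      (sum_sum hd hq h)⟩

end Pool.Agent.Results.MP_c69980_ag.GeneralComplements
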