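import Pool.Agent.NH27.O.UCover
import Pool.Agent.NH27.G.Form1
import Pool.Agent.NH27.G.Form2

/-!
MP_c69980_ag, Q1: complements of generic hypersurface sections in Kummer covers of generic sections of
arbitrary projective varieties.

Let `K` be an algebraically closed field of characteristic `0` (such as `ℂ`), and let `k` be a field
contained in `K` (such as `ℚ`), with algebraic closure `k'` in `K`. Let `V` be an irreducible closed
subvariety of projective space of dimension `n`, defined over `k'`, of dimension `m`. It is given by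
its function field `R` and its generic point `ξ`, in homogeneous coordinates: the ratios of the
coordinates of `ξ` generate `R`, and `V` is defined by the forms over `k'` that vanish at `ξ`.

Let `F_a`, for `a` in a finite set `A`, be forms of degrees `d_a > 0` in `n + 1` variables over `K`
such that the ratios of the coefficients of `F_a` to one of them are, for all `a` together,
algebraically independent over `k` (very general forms). Let `C` be a subset of `A`, let `V_C` be the
intersection of `V` with the hypersurfaces `F_c = 0`, `c ∈ C`, and let `q_b`, `b ∉ C`, be divisors of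
`d_b` or `0`, and `q_b = 0` for at least one `b`. Let `X` be the Kummer cover `z_b ^ q_b = F_b (x)`,
`b ∉ C`, `q_b ≥ 1`, of `V_C`, and let `U` be the complement in `X` of the hypersurfaces
`F_b (x) = 0`, `b ∉ C`, `q_b = 0`.

Let `s` be the sum of the `d_b - d_b / q_b`, `b ∉ C` (where `d_b / 0 = 0`), and of the `d_c + 1`,
`c ∈ C`.

(A) Suppose that there is a nonzero regular form of degree `m` on `V` with values in `O(j)` (for a
resolution `V'` of `V`, a nonzero section of `K_{V'} + j L`, where `L` is the pull-back of `O(1)`).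

Suppose `2 m - 1 ≤ s` and `m + j ≤ s`. Then `U` satisfies the conditions 4 and 5 of the conjecture
with `Δ = ∅`. More precisely:
(4) all closed subvarieties of `U` of positive dimension, such as `U` itself, are of log general
    type;
(5) the degree of every nonconstant morphism from a smooth curve to `U` is at most `2 g - 2 + r`,
    where `g` is the genus, and `r` the number of points at infinity of the curve;
(2') all morphisms to `U` from big open subsets of semi-abelian varieties are constant.

Suppose `2 m - 1 ≤ s`, `m + j - 1 ≤ s`, and that `C` has at most `m - 2` elements. Then all closed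
subvarieties of `U` of positive dimension are of log general type, except for curves which lie over
lines in `V_C`, and the morphisms from big open subsets of semi-abelian varieties to `U` are constant
or their images are such curves.

Moreover, for all `s` and `w > 0` with `2 m ≤ s + w` and `m + j + 1 ≤ s + w`, the closed subvarieties
of `U` of dimension `w` are of log general type.

(B) For every `V`, the conclusions hold if `2 m + 1 ≤ s`, or `2 m ≤ s`, respectively.

(C) If `V` is a smooth hypersurface of degree `e` (so `n = m + 1`), then the conclusions hold if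
`2 m - 1 ≤ s` and `2 m + 2 - e ≤ s`, or `2 m + 1 - e ≤ s`, respectively; so for `e ≥ 3` all of them
hold if `2 m - 1 ≤ s`.

Regularity of the form `ω` with values in `O(j)`: for every valuation ring `O` of `R` that contains
`k'`, and every `i` such that all `ξ_l / ξ_i` are in `O`, the form `ω / ξ_i ^ j` is a sum of forms
`a df_1 ∧ ... ∧ df_m` with `a` and all `f_v` in `O`. This holds for the sections of `K_{V'} + j L`
on a smooth projective model `V'`, since `O` contains the local ring of a point of `V'`.

For the subvarieties, `L` is the function field of the subvariety, or a finite extension of it, `w`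
is its dimension, and `(x, z)` is its generic point. A prime divisor `Q` over the closure of the
subvariety has its centre outside `U` if `d_b min_i ord_Q (x_i) < ord_Q (F_b (x))` for some `b` with
`q_b = 0`. `LogGeneralType K L w Bd`: the transcendence degree of `L` is `w` and, for some `N > 0`,
there are logarithmic `N`-canonical forms, regular at the prime divisors `Q` without `Bd Q`, whose
ratios contain `w` algebraically independent functions.
-/

set_option autoImplicit false

namespace Pool.Agent.Results.MP_c69980_ag.KummerComplements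

open MvPolynomial FF Pool.Agent.W603.PV Pool.Agent.W602.GT Pool.Agent.W603.LV

/-- The form `ω` on the variety with generic point `ξ` is regular, with values in `O(j)`. -/
def RegularForm (k' : Type) [Field k'] {R : Type} [Field R] [Algebra k' R] {n m : ℕ}
    (ξ : Fin (n + 1) → R) (j : ℕ) (ω : (Derivation k' R R) [⋀^Fin m]→ₗ[R] R) : Prop :=
  ∀ O : ValuationSubring R, (∀ c : k', algebraMap k' R c ∈ O) → ∀ i, ξ i ≠ 0 →
    (∀ l, ξ l / ξ i ∈ O) → ∃ (N : ℕ) (a : Fin N → R) (f : Fin N → Fin m → R),
      (∀ α, a α ∈ O ∧ ∀ v, f α v ∈ O) ∧ ∀ δ : Fin m → Derivation k' R R,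
        ω δ / ξ i ^ j = ∑ α, a α * Matrix.det (Matrix.of fun u v => δ u (f α v))

/-- The point `x` of projective space, with coordinates in an extension of `K`, is on the variety
with generic point `ξ`. -/
def OnVariety {k' R K L : Type} [Field k'] [Field R] [Algebra k' R] [Field K] [Algebra k' K]
    [Field L] [Algebra K L] {n : ℕ} (ξ : Fin (n + 1) → R) (x : Fin (n + 1) → L) : Prop :=
  ∀ (f : MvPolynomial (Fin (n + 1)) k') (e : ℕ), f.IsHomogeneous e → aeval ξ f = 0 →
    aeval x (map (algebraMap k' K) f) = 0

/-- The number `s`. -/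
def slope {A : Type} [Fintype A] [DecidableEq A] (d q : A → ℕ) (C : Finset A) : ℕ :=
  ∑ c ∈ C, (d c + 1) + ∑ b ∈ Cᶜ, (d b - d b / q b)

/-- The point `(x, z)`, with coordinates in an extension of `K`, is on `U`. Only the `z b` with
`b ∉ C` and `q b ≠ 0` are coordinates. -/
def OnU (k' : Type) {R K L A : Type} [Field k'] [Field R] [Algebra k' R] [Field K]
    [Algebra k' K] [Field L] [Algebra K L] {n : ℕ} (ξ : Fin (n + 1) → R)
    (F : A → MvPolynomial (Fin (n + 1)) K) (C : Finset A) (q : A → ℕ) (x : Fin (n + 1) → L)
    (z : A → L) : Prop :=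
  x ≠ 0 ∧ OnVariety (k' := k') (K := K) ξ x ∧ (∀ c ∈ C, aeval x (F c) = 0) ∧
    ∀ b, b ∉ C → (q b ≠ 0 → z b ^ q b = aeval x (F b)) ∧ (q b = 0 → aeval x (F b) ≠ 0)

/-- The prime divisor `Q` has its centre on the boundary of `U`. -/
def Boundary {K L A : Type} [Field K] [Field L] [Algebra K L] {n : ℕ}
    (F : A → MvPolynomial (Fin (n + 1)) K) (d : A → ℕ) (C : Finset A) (q : A → ℕ)
    (x : Fin (n + 1) → L) (Q : Place K L) : Prop :=
  ∃ b, b ∉ C ∧ q b = 0 ∧ d b * pord Q x < Q.ord (aeval x (F b))

/-- `L` is (a finite extension of) the function field, and `(x, z)` the generic point, of a closed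
subvariety of dimension `w` of `U`. -/
def Subvariety (k' : Type) {R K L A : Type} [Field k'] [Field R] [Algebra k' R] [Field K]
    [Algebra k' K] [Field L] [Algebra K L] {n : ℕ} (ξ : Fin (n + 1) → R)
    (F : A → MvPolynomial (Fin (n + 1)) K) (C : Finset A) (q : A → ℕ) (w : ℕ)
    (x : Fin (n + 1) → L) (z : A → L) : Prop :=
  OnU k' ξ F C q x z ∧ Algebra.trdeg K L = w ∧ Algebra.IsAlgebraic (coords K x) L

/-- `M` is the function field of a projective variety of dimension `g`, with the set `𝒬` of prime
divisors, and the set `𝒟` of the prime divisors at infinity, which has `g` vector fields `Δ i` that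
are linearly independent at the generic point, regular outside of `𝒟`, and logarithmic at `𝒟`. All
semi-abelian varieties of positive dimension have such compactifications, with the invariant vector
fields. -/
structure Compactification {K M : Type} [Field K] [Field M] [Algebra K M] {g : ℕ}
    (𝒬 𝒟 : Set (Place K M)) (Δ : Fin g → Derivation K M M) : Prop where
  /-- the dimension is `g` -/
  dim : Algebra.trdeg K M = g
  /-- the elements of `𝒬` are prime divisors -/
  div : ∀ Q ∈ 𝒬, Divisorial g Q
  /-- the functions without poles are constant -/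
  const : ∀ f : M, (∀ Q ∈ 𝒬, Q.Reg f) → ∃ c : K, f = algebraMap K M c
  /-- the vector fields are a basis of the rational vector fields -/
  basis : ∀ D : Derivation K M M, ∃ c : Fin g → M, D = ∑ l, c l • Δ l
  /-- the vector fields are regular -/
  reg : ∀ Q ∈ 𝒬, Q ∉ 𝒟 → ∀ i, DerReg Q (Δ i)
  /-- the vector fields are logarithmic at infinity -/
  log : ∀ Q ∈ 𝒬, Q ∈ 𝒟 → ∀ i, DerLog Q (Δ i)

/-- The map to `U` given by the point `(x, z)` over the function field `M` is constant. -/
def IsConstant (K : Type) {M A : Type} [Field K] [Field M] [Algebra K M] {n : ℕ} (d q : A → ℕ)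
    (C : Finset A) (x : Fin (n + 1) → M) (z : A → M) : Prop :=
  ∃ (y : M) (a : Fin (n + 1) → K) (e : A → K), y ≠ 0 ∧ (∀ l, x l = y * algebraMap K M (a l)) ∧
    ∀ b, b ∉ C → q b ≠ 0 → z b = y ^ (d b / q b) * algebraMap K M (e b)

/-- A line, given by a vector space of dimension two, that is contained in `V_C`. -/
def IsLine (k' : Type) {R K A : Type} [Field k'] [Field R] [Algebra k' R] [Field K]
    [Algebra k' K] {n : ℕ} (ξ : Fin (n + 1) → R) (F : A → MvPolynomial (Fin (n + 1)) K)
    (C : Finset A) (W : Submodule K (Fin (n + 1) → K)) : Prop :=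
  Module.finrank K W = 2 ∧ ∀ v ∈ W, OnVariety (k' := k') (K := K) ξ v ∧ ∀ c ∈ C, eval v (F c) = 0

/-- The point `x` is on a line that is contained in `V_C`. -/
def OverLine (k' : Type) {R K L A : Type} [Field k'] [Field R] [Algebra k' R] [Field K]
    [Algebra k' K] [Field L] [Algebra K L] {n : ℕ} (ξ : Fin (n + 1) → R)
    (F : A → MvPolynomial (Fin (n + 1)) K) (C : Finset A) (x : Fin (n + 1) → L) : Prop :=
  ∃ W, IsLine k' ξ F C W ∧ ∃ u ∈ W, ∃ v ∈ W, ∃ a b : L,
    ∀ l, x l = a * algebraMap K L (u l) + b * algebraMap K L (v l)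

/-- The conditions 4 and 5, and the algebraic form of condition 2, with `Δ = ∅`. -/
def Conditions (k' : Type) {R K A : Type} [Field k'] [Field R] [Algebra k' R] [Field K]
    [Algebra k' K] {n : ℕ} (ξ : Fin (n + 1) → R) (F : A → MvPolynomial (Fin (n + 1)) K)
    (d : A → ℕ) (C : Finset A) (q : A → ℕ) : Prop :=
  -- (4) all closed subvarieties of positive dimension are of log general type
  (∀ (L : Type) [Field L] [Algebra K L] (w : ℕ) (x : Fin (n + 1) → L) (z : A → L), 0 < w →
    Subvariety k' ξ F C q w x z → LogGeneralType K L w (Boundary F d C q x)) ∧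
  -- (5) the degrees of the nonconstant morphisms from curves are at most `2 g - 2 + r`
  (∀ (L : Type) [Field L] [Algebra K L] [IsFF K L] (S : Finset (Place K L))
    (x : Fin (n + 1) → L) (z : A → L), OnU k' ξ F C q x z →
    (∀ Q, Boundary F d C q x Q → Q ∈ S) →
    IsConstant K d q C x z ∨ pht K x ≤ canDeg K L + S.card) ∧
  -- (2') the morphisms from big open subsets of semi-abelian varieties are constant
  ∀ (M : Type) [Field M] [Algebra K M] (g : ℕ) (𝒬 𝒟 : Set (Place K M))
    (Δ : Fin g → Derivation K M M) (x : Fin (n + 1) → M) (z : A → M), Compactification 𝒬 𝒟 Δ →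
    OnU k' ξ F C q x z → (∀ Q ∈ 𝒬, Q ∉ 𝒟 → ¬ Boundary F d C q x Q) → IsConstant K d q C x z

/-- The second conclusion. -/
def ConditionsOffLines (k' : Type) {R K A : Type} [Field k'] [Field R] [Algebra k' R] [Field K]
    [Algebra k' K] {n : ℕ} (ξ : Fin (n + 1) → R) (F : A → MvPolynomial (Fin (n + 1)) K)
    (d : A → ℕ) (C : Finset A) (q : A → ℕ) : Prop :=
  -- the closed subvarieties
  (∀ (L : Type) [Field L] [Algebra K L] [Algebra.EssFiniteType K L] (w : ℕ)
    (x : Fin (n + 1) → L) (z : A → L), 0 < w → Subvariety k' ξ F C q w x z →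
    LogGeneralType K L w (Boundary F d C q x) ∨ w = 1 ∧ OverLine k' ξ F C x) ∧
  -- the morphisms from big open subsets of semi-abelian varieties
  ∀ (M : Type) [Field M] [Algebra K M] (g : ℕ) (𝒬 𝒟 : Set (Place K M))
    (Δ : Fin g → Derivation K M M) (x : Fin (n + 1) → M) (z : A → M), Compactification 𝒬 𝒟 Δ →
    OnU k' ξ F C q x z → (∀ Q ∈ 𝒬, Q ∉ 𝒟 → ¬ Boundary F d C q x Q) →
    IsConstant K d q C x z ∨ OverLine k' ξ F C x

theorem result {k K : Type} [Field k] [Field K] [IsAlgClosed K] [CharZero K] [Algebra k K]
    {n m : ℕ}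
    -- a projective variety of dimension `m` over the algebraic closure of `k`: the function field
    -- and the generic point
    {R : Type} [Field R] [Algebra (algebraicClosure k K) R] (ξ : Fin (n + 1) → R)
    (hξ : coords (algebraicClosure k K) ξ = ⊤)
    (hm : Algebra.trdeg (algebraicClosure k K) R = m)
    -- the equations are `F c = 0` for `c ∈ C`, and the other forms give the branch divisors and,
    -- if `q b = 0`, the boundary
    {A : Type} [Fintype A] [DecidableEq A] {d : A → ℕ} (hd0 : ∀ a, 0 < d a) (C : Finset A)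
    (q : A → ℕ) (hq : ∀ b, b ∉ C → q b ∣ d b ∨ q b = 0) (hne : ∃ b, b ∉ C ∧ q b = 0)
    -- the forms; the ratios of their coefficients are algebraically independent over `k`
    (F : A → MvPolynomial (Fin (n + 1)) K) (hF : ∀ a, (F a).IsHomogeneous (d a))
    (I0 : ∀ a, {I : Fin (n + 1) →₀ ℕ // I.degree = d a}) (h0 : ∀ a, (F a).coeff (I0 a).1 ≠ 0)
    (hgen : AlgebraicIndependent k
      fun p : (a : A) × {I : {I : Fin (n + 1) →₀ ℕ // I.degree = d a} // I ≠ I0 a} =>
        (F p.1).coeff p.2.1.1 / (F p.1).coeff (I0 p.1).1) :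
    -- (A) varieties with a nonzero regular form with values in `O(j)`
    (∀ (j : ℕ) (ω : (Derivation (algebraicClosure k K) R R) [⋀^Fin m]→ₗ[R] R), ω ≠ 0 →
      RegularForm (algebraicClosure k K) ξ j ω →
      (2 * m ≤ slope d q C + 1 → m + j ≤ slope d q C →
        Conditions (algebraicClosure k K) ξ F d C q) ∧
      (2 * m ≤ slope d q C + 1 → m + j ≤ slope d q C + 1 → C.card + 2 ≤ m →
        ConditionsOffLines (algebraicClosure k K) ξ F d C q) ∧
      ∀ (L : Type) [Field L] [Algebra K L] (w : ℕ) (x : Fin (n + 1) → L) (z : A → L), 0 < w →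
        2 * m ≤ slope d q C + w → m + j + 1 ≤ slope d q C + w →
        Subvariety (algebraicClosure k K) ξ F C q w x z →
        LogGeneralType K L w (Boundary F d C q x)) ∧
    -- (B) all varieties
    (0 < m → (2 * m + 1 ≤ slope d q C → Conditions (algebraicClosure k K) ξ F d C q) ∧
      (2 * m ≤ slope d q C → C.card + 2 ≤ m →
        ConditionsOffLines (algebraicClosure k K) ξ F d C q)) ∧
    -- (C) smooth hypersurfaces of degree `e`
    (0 < m → n = m + 1 → ∀ (e : ℕ) (G : MvPolynomial (Fin (n + 1)) (algebraicClosure k K)),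
      0 < e → G.IsHomogeneous e → aeval ξ G = 0 →
      (∀ x : Fin (n + 1) → algebraicClosure k K, x ≠ 0 → eval x G = 0 →
        ∃ l, eval x (pderiv l G) ≠ 0) →
      (2 * m ≤ slope d q C + 1 → 2 * m + 2 ≤ slope d q C + e →
        Conditions (algebraicClosure k K) ξ F d C q) ∧
      (2 * m ≤ slope d q C + 1 → 2 * m + 1 ≤ slope d q C + e → C.card + 2 ≤ m →
        ConditionsOffLines (algebraicClosure k K) ξ F d C q)) := by
  have hac : IsAlgClosed (algebraicClosure k K) := (algebraicClosure.isAlgClosure k K).isAlgClosed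
  have hcz : CharZero (algebraicClosure k K) :=
    (RingHom.charZero_iff (algebraMap (algebraicClosure k K) K).injective).2 inferInstance
  have hind : AlgebraicIndependent (algebraicClosure k K)
      fun p : Pool.Agent.TH145.GC.Rt d (fun a => (I0 a).1) =>
        (F p.1).coeff p.2.1 / (F p.1).coeff (I0 p.1).1 := by
    refine AlgebraicIndependent.algebraicClosure ?_
    have h2 := hgen.comp (fun p : Pool.Agent.TH145.GC.Rt d (fun a => (I0 a).1) =>
      (⟨p.1, ⟨⟨p.2.1, p.2.2.1⟩, fun h => p.2.2.2 (congrArg Subtype.val h)⟩⟩ :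
        (a : A) × {I : {I : Fin (n + 1) →₀ ℕ // I.degree = d a} // I ≠ I0 a})) (by
        rintro ⟨a, ⟨I, hI⟩⟩ ⟨a', ⟨I', hI'⟩⟩ h
        have e1 : a = a' := congrArg Sigma.fst h
        subst e1
        have e2 := eq_of_heq (Sigma.mk.inj_iff.1 h).2
        have e3 : I = I' := congrArg (fun z => z.1.1) e2
        subst e3
        rfl)
    exact h2
  have hsl : slope d q C = Pool.Agent.NH27.O.slope d q C := rfl
  have hA : ∀ (j : ℕ) (ω : (Derivation (algebraicClosure k K) R R) [⋀^Fin m]→ₗ[R] R),
      Pool.Agent.NH27.G.TwForm (algebraicClosure k K) m j ξ ω →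
      (2 * m ≤ slope d q C + 1 → m + j ≤ slope d q C →
        Conditions (algebraicClosure k K) ξ F d C q) ∧
      (2 * m ≤ slope d q C + 1 → m + j ≤ slope d q C + 1 → C.card + 2 ≤ m →
        ConditionsOffLines (algebraicClosure k K) ξ F d C q) ∧
      ∀ (L : Type) [Field L] [Algebra K L] (w : ℕ) (x : Fin (n + 1) → L) (z : A → L), 0 < w →
        2 * m ≤ slope d q C + w → m + j + 1 ≤ slope d q C + w →
        Subvariety (algebraicClosure k K) ξ F C q w x z →
        LogGeneralType K L w (Boundary F d C q x) := by
    intro j ω hω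
    have hgt : ∀ (L : Type) [Field L] [Algebra K L] (w : ℕ) (x : Fin (n + 1) → L) (z : A → L),
        0 < w → 2 * m ≤ slope d q C + w → m + j + 1 ≤ slope d q C + w →
        Subvariety (algebraicClosure k K) ξ F C q w x z →
        LogGeneralType K L w (Boundary F d C q x) := by
      intro L _ _ w x z hw h1 h2 hx
      exact Pool.Agent.NH27.O.ucover_gt hω hξ hm hF h0 hind hq hw h1 h2 hx.2.1 hx.2.2 hx.1
    refine ⟨fun h1 h2 => ⟨?_, ?_, ?_⟩, fun h1 h2 hCm => ?_, hgt⟩
    · intro L _ _ w x z hw hx
      exact hgt L w x z hw (by omega) (by omega) hx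
    · intro L _ _ _ S x z hx hS
      refine (Pool.Agent.NH27.O.const_or_alg hF hq hx).imp_right fun hL => ?_
      exact Pool.Agent.NH27.O.ucover_hgt hω hξ hm hF h0 hind hq h1 h2 hL hx S hS
    · intro M _ _ g 𝒬 𝒟 Δ x z hM hx hD
      refine (Pool.Agent.NH27.O.uframe_main (Good := fun _ => False) hF hq
        (fun L _ _ _ w x z hw hwt hL hX => Or.inl (hgt L w x z hw (by omega) (by omega)
          ⟨hX, hwt, hL⟩)) ⟨hM.dim, hM.div, hM.const, hM.basis, hM.reg, hM.log⟩ hx
          hD).resolve_right ?_
      rintro ⟨W, hW, -⟩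
      exact hW
    · have hsub : ∀ (L : Type) [Field L] [Algebra K L] [Algebra.EssFiniteType K L] (w : ℕ)
          (x : Fin (n + 1) → L) (z : A → L), 0 < w →
          Subvariety (algebraicClosure k K) ξ F C q w x z →
          LogGeneralType K L w (Boundary F d C q x) ∨
            w = 1 ∧ OverLine (algebraicClosure k K) ξ F C x := by
        intro L _ _ hess w x z hw hx
        rcases Nat.lt_or_ge 1 w with h3 | h3
        · exact Or.inl (hgt L w x z hw (by omega) (by omega) hx)
        · obtain rfl : w = 1 := by omega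
          have hFF : IsFF K L := ⟨hess, by rw [hx.2.1, Nat.cast_one]⟩
          refine (Pool.Agent.NH27.O.ucover_line hω hξ hm hF h0 hind hq hd0 hCm h1 h2 hx.2.2
            hx.1).imp_right fun h3 => ⟨rfl, ?_⟩
          obtain ⟨W, hW2, hW, h4⟩ := h3
          refine ⟨W, ⟨hW2, fun v hv => ⟨fun f e hf hf0 => ?_, (hW v hv).2⟩⟩, h4⟩
          rw [aeval_map_algebraMap]
          exact (hW v hv).1 f e hf hf0
      refine ⟨hsub, ?_⟩
      intro M _ _ g 𝒬 𝒟 Δ x z hM hx hD
      exact Pool.Agent.NH27.O.uframe_main
        (Good := fun W => IsLine (algebraicClosure k K) ξ F C W) hF hq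
        (fun L _ _ _ w x z hw hwt hL hX => (hsub L w x z hw ⟨hX, hwt, hL⟩).imp_right And.right)
        ⟨hM.dim, hM.div, hM.const, hM.basis, hM.reg, hM.log⟩ hx hD
  refine ⟨fun j ω hω0 hω => hA j ω ⟨hω0, hω⟩, fun hm0 => ?_, fun hm0 hn e G he hG hG0 hsm => ?_⟩
  · obtain ⟨ω, hω⟩ := Pool.Agent.NH27.G.exists_minor_form hm0 hξ hm
    obtain ⟨h1, h2, -⟩ := hA (m + 1) ω hω
    exact ⟨fun h3 => h1 (by omega) (by omega), fun h3 h4 => h2 (by omega) (by omega) h4⟩
  · subst hn
    obtain ⟨ω, hω⟩ := Pool.Agent.NH27.G.exists_hyp_form hm0 he hξ hm hG hG0 hsm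
    obtain ⟨h1, h2, -⟩ := hA (m + 2 - e) ω hω
    exact ⟨fun h3 h4 => h1 h3 (by omega), fun h3 h4 h5 => h2 h3 (by omega) h5⟩

end Pool.Agent.Results.MP_c69980_ag.KummerComplements
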