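import Pool.Agent.R869.LFive

/-!
MP_c69980_ag, Q1: log Fano and log Calabi-Yau pairs on weighted complete intersections satisfy none
of the five conditions.

Let `X` be an irreducible component of the intersection of hypersurfaces of degrees `e 1, ..., e c`
in the weighted projective space with coordinates of weights `1, w 1, ..., w m`, with arbitrary
singularities and of any dimension, not contained in the hyperplane at infinity (the hypersurface
given by the coordinate of weight one). Let `D` be the intersection of `X` with a hypersurface of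
degree `d`, which does not contain `X` and may be reducible or non-reduced. Let
`∑ e j + d < ∑ w i + min (d, 2)`: for `d ≥ 2`, this means that `K + D` has degree at most `0`, where
`K` is the canonical divisor given by the adjunction formula. Let `U` be the complement of `D` in
`X`. Examples: complements of hypersurfaces of degree at most `n + 1` in projective space; of
boundary divisors `D ≠ 0` of the cyclic covers `z ^ q = F (x)`.

Theorem: none of the five conditions of the problem holds for `U`. For each proper closed subset `Δ`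
there are distinct points of `U`, one of them not in `Δ`, with Kobayashi pseudodistance `0`, an
entire curve which is not contained in `Δ`, a point of `U` outside `Δ` through which there are
infinitely many pointed maps from the multiplicative group, and morphisms from the multiplicative
group to `U` of arbitrarily large degree whose images are not contained in `Δ`; and `U` is not of
logarithmic general type. So the conditions are equivalent for these `U`.

The pair is given by affine equations (the coordinate of weight one is set to `1`) and a projective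
embedding, or a finite morphism to projective `n`-space, `Y`; this is the structure `Pres`
(`Pool/Agent/R869/LGm.lean`): `P` is the prime ideal of (the affine part of) `X`, a minimal prime
ideal over the polynomials `F j` of weighted degree at most `e j`; the coordinates `Y j` of the
morphism are polynomials of weighted degree at most `D`, among which are `1` and powers of all the
variables; `p` is the ideal of the image of `X`; and `Q` is a form in the homogeneous coordinates of
projective space whose pull-back is (a constant times) a power of `G`, the equation of the boundary,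
of weighted degree at most `d`, and of the same degree. If all weights are `1` one can take the
identity, `Y = (1, x 1, ..., x m)`, `D = 1`.
-/

set_option autoImplicit false

namespace Pool.Agent.Results.MP_c69980_ag.LogCalabiYauPairs

open MvPolynomial Metric Pool.Agent.W602.GT Pool.Agent.R869
open scoped ENNReal

variable {n : ℕ} (p : Ideal (MvPolynomial (Fin (n + 1)) ℂ)) (Q : MvPolynomial (Fin (n + 1)) ℂ)

/-- The homogeneous coordinates of the points of `U`: the complement of the hypersurface `Q = 0` in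
the closed subvariety of `P^n` with the ideal `p`. -/
def Pts : Set (Fin (n + 1) → ℂ) := {x | x ≠ 0 ∧ (∀ H ∈ p, eval x H = 0) ∧ eval x Q ≠ 0}

/-- The vectors `x` and `y` are homogeneous coordinates of the same point. -/
def Same (x y : Fin (n + 1) → ℂ) : Prop := ∃ c : ℂ, c ≠ 0 ∧ x = c • y

/-- The form `G` does not vanish identically on `U`; so its zeros form a proper closed subset. -/
def Proper (G : MvPolynomial (Fin (n + 1)) ℂ) : Prop :=
  (∃ d, G.IsHomogeneous d) ∧ ∃ x ∈ Pts p Q, eval x G ≠ 0

/-- A chain of `N` holomorphic maps `f i` from the unit disc to `U`, which connects the points `x`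
and `y`: it maps `0` and `a i` to the points `z i` and `z (i + 1)`, where `z 0 = x`, `z N = y`. -/
structure IsChain (x y : Fin (n + 1) → ℂ) {N : ℕ} (f : Fin N → ℂ → Fin (n + 1) → ℂ)
    (a : Fin N → ℂ) (z : Fin (N + 1) → Fin (n + 1) → ℂ) : Prop where
  hol : ∀ i, DifferentiableOn ℂ (f i) (ball 0 1)
  mem : ∀ i, ∀ t ∈ ball (0 : ℂ) 1, f i t ∈ Pts p Q
  disc : ∀ i, a i ∈ ball (0 : ℂ) 1
  source : ∀ i, Same (f i 0) (z i.castSucc)
  target : ∀ i, Same (f i (a i)) (z i.succ)
  first : Same (z 0) x
  last : Same (z (Fin.last N)) y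

/-- The Kobayashi pseudodistance of `U`: the infimum of the lengths of the chains of discs. The
distance of `0` and `a` in the unit disc is `log ((1 + |a|) / (1 - |a|))`. -/
noncomputable def kobayashi (x y : Fin (n + 1) → ℂ) : ℝ≥0∞ :=
  ⨅ (N : ℕ) (f : Fin N → ℂ → Fin (n + 1) → ℂ) (a : Fin N → ℂ) (z : Fin (N + 1) → Fin (n + 1) → ℂ)
    (_ : IsChain p Q x y f a z), ∑ i, ENNReal.ofReal (Real.log ((1 + ‖a i‖) / (1 - ‖a i‖)))

/-- Condition 1: `U` is pseudo-Kobayashi hyperbolic. -/
def PseudoKobayashi : Prop :=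
  ∃ G : MvPolynomial (Fin (n + 1)) ℂ, Proper p Q G ∧ ∀ x ∈ Pts p Q, ∀ y ∈ Pts p Q, ¬ Same x y →
    (eval x G ≠ 0 ∨ eval y G ≠ 0) → 0 < kobayashi p Q x y

/-- Condition 2: some proper closed subset contains all entire curves, that is, all nonconstant
holomorphic maps from `ℂ` to `U`. -/
def PseudoBrody : Prop :=
  ∃ G : MvPolynomial (Fin (n + 1)) ℂ, Proper p Q G ∧ ∀ f : ℂ → Fin (n + 1) → ℂ,
    Differentiable ℂ f → (∀ z, f z ∈ Pts p Q) → (∃ z w, ¬ Same (f z) (f w)) →
      ∀ z, eval (f z) G = 0

/-- Morphisms from the multiplicative group to `U`, given by polynomials in `t` without common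
zeros. -/
def GmMap (W : Fin (n + 1) → Polynomial ℂ) : Prop :=
  (∀ t : ℂ, t ≠ 0 → (fun j => (W j).eval t) ∈ Pts p Q) ∧ ∃ j, (W j).eval 0 ≠ 0

/-- The pointed maps from the multiplicative group to `U` which map `1` to `x`. -/
def PointedMaps (x : Fin (n + 1) → ℂ) : Set ({t : ℂ // t ≠ 0} → Set (Fin (n + 1) → ℂ)) :=
  {φ | ∃ W, GmMap p Q W ∧ Same (fun j => (W j).eval 1) x ∧
    ∀ t, φ t = {y | Same y fun j => (W j).eval t}}

/-- Condition 3, for the variety `Y = G_m` and its point `1` only: outside some proper closed subset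
there are only finitely many pointed maps. -/
def FinitePointedMaps : Prop :=
  ∃ G : MvPolynomial (Fin (n + 1)) ℂ, Proper p Q G ∧
    ∀ x ∈ Pts p Q, eval x G ≠ 0 → (PointedMaps p Q x).Finite

/-- Condition 5, for the curve `C = G_m` only: for some proper closed subset `Δ`, the degrees of
the morphisms from `G_m` to `U` whose images are not contained in `Δ` are bounded. -/
def BoundedModulo : Prop :=
  ∃ G : MvPolynomial (Fin (n + 1)) ℂ, Proper p Q G ∧ ∃ B : ℕ, ∀ W, GmMap p Q W →
    (∃ t : ℂ, t ≠ 0 ∧ eval (fun j => (W j).eval t) G ≠ 0) → ∀ j, (W j).natDegree ≤ B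

variable {p Q}

theorem Same.refl (x : Fin (n + 1) → ℂ) : Same x x := ⟨1, one_ne_zero, (one_smul _ _).symm⟩

theorem Same.symm {x y : Fin (n + 1) → ℂ} (h : Same x y) : Same y x := by
  obtain ⟨c, hc, rfl⟩ := h
  exact ⟨c⁻¹, inv_ne_zero hc, by rw [smul_smul, inv_mul_cancel₀ hc, one_smul]⟩

theorem Same.trans {x y z : Fin (n + 1) → ℂ} (h : Same x y) (h' : Same y z) : Same x z := by
  obtain ⟨c, hc, rfl⟩ := h
  obtain ⟨d, hd, rfl⟩ := h'
  exact ⟨c * d, mul_ne_zero hc hd, by rw [smul_smul]⟩

theorem Same.minor {x y : Fin (n + 1) → ℂ} (h : Same x y) (i j : Fin (n + 1)) :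
    x i * y j = x j * y i := by
  obtain ⟨c, hc, rfl⟩ := h
  simp only [Pi.smul_apply, smul_eq_mul]
  ring

theorem same_of_minor {x y : Fin (n + 1) → ℂ} (hx : x ≠ 0) (hy : y ≠ 0)
    (h : ∀ i j, x i * y j = x j * y i) : Same x y := by
  obtain ⟨i0, hi0⟩ := Function.ne_iff.1 hy
  obtain ⟨i1, hi1⟩ := Function.ne_iff.1 hx
  have hi0' : y i0 ≠ 0 := hi0
  have hi1' : x i1 ≠ 0 := hi1
  have hx0 : x i0 ≠ 0 := by
    intro h0
    have := h i0 i1
    rw [h0, zero_mul] at this
    exact mul_ne_zero hi1' hi0' this.symm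
  refine ⟨x i0 / y i0, div_ne_zero hx0 hi0', ?_⟩
  funext j
  rw [Pi.smul_apply, smul_eq_mul, div_mul_eq_mul_div, eq_div_iff hi0', h j i0]

/-- nonconstant curve -/
def Nonconst (W : Fin (n + 1) → Polynomial ℂ) : Prop :=
  ∃ s : ℂ, s ≠ 0 ∧ ¬ Same (fun j => (W j).eval s) fun j => (W j).eval 1

/-- the powers of the parameter -/
noncomputable def pw (W : Fin (n + 1) → Polynomial ℂ) (N : ℕ) : Fin (n + 1) → Polynomial ℂ :=
  fun j => (W j).comp (Polynomial.X ^ N)

theorem pw_eval (W : Fin (n + 1) → Polynomial ℂ) (N : ℕ) (t : ℂ) :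
    (fun j => (pw W N j).eval t) = fun j => (W j).eval (t ^ N) := by
  funext j
  unfold pw
  rw [Polynomial.eval_comp, Polynomial.eval_pow, Polynomial.eval_X]

theorem GmMap.powers {W : Fin (n + 1) → Polynomial ℂ} (hW : GmMap p Q W) {N : ℕ} (hN : 0 < N) :
    GmMap p Q (pw W N) := by
  refine ⟨fun t ht => ?_, ?_⟩
  · rw [pw_eval]
    exact hW.1 _ (pow_ne_zero _ ht)
  · obtain ⟨j, hj⟩ := hW.2
    refine ⟨j, ?_⟩
    have : (pw W N j).eval 0 = (W j).eval (0 ^ N) := congrFun (pw_eval W N 0) j
    rw [this, zero_pow hN.ne']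
    exact hj

theorem exists_exp {s : ℂ} (hs : s ≠ 0) : ∃ a : ℂ, Complex.exp a = s :=
  ⟨Complex.log s, Complex.exp_log hs⟩

theorem exp_curve_diff (W : Fin (n + 1) → Polynomial ℂ) (c : ℂ) :
    Differentiable ℂ fun z : ℂ => fun j => (W j).eval (Complex.exp (c * z)) := by
  rw [differentiable_pi]
  intro j
  exact (W j).differentiable.comp (Complex.differentiable_exp.comp
    ((differentiable_const c).mul differentiable_id))

/-- **Condition 2 fails.** -/
theorem not_brody (h : ∀ G, Proper p Q G → ∃ W, GmMap p Q W ∧ Nonconst W ∧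
    eval (fun j => (W j).eval 1) G ≠ 0) : ¬ PseudoBrody p Q := by
  rintro ⟨G, hG, hf⟩
  obtain ⟨W, hW, ⟨s, hs, hne⟩, hWG⟩ := h G hG
  obtain ⟨a, ha⟩ := exists_exp hs
  have h1 := hf (fun z => fun j => (W j).eval (Complex.exp (1 * z))) (exp_curve_diff W 1)
    (fun z => hW.1 _ (Complex.exp_ne_zero _)) ⟨a, 0, by
      simpa [ha] using hne⟩ 0
  apply hWG
  simpa using h1

/-- **Condition 5 fails.** -/
theorem not_bounded (h : ∀ G, Proper p Q G → ∃ W, GmMap p Q W ∧ Nonconst W ∧
    eval (fun j => (W j).eval 1) G ≠ 0) : ¬ BoundedModulo p Q := by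
  rintro ⟨G, hG, B, hB⟩
  obtain ⟨W, hW, ⟨s, hs, hne⟩, hWG⟩ := h G hG
  have h1 : ∃ j, 0 < (W j).natDegree := by
    by_contra hcon
    push Not at hcon
    apply hne
    have h2 : (fun j => (W j).eval s) = fun j => (W j).eval 1 := by
      funext j
      rw [Polynomial.eq_C_of_natDegree_eq_zero (Nat.le_zero.1 (hcon j)), Polynomial.eval_C,
        Polynomial.eval_C]
    rw [h2]
    exact Same.refl _
  obtain ⟨j, hj⟩ := h1
  have h2 := hB (pw W (B + 1)) (hW.powers (Nat.succ_pos _)) ⟨1, one_ne_zero, by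
    rw [pw_eval, one_pow]
    exact hWG⟩ j
  unfold pw at h2
  rw [Polynomial.natDegree_comp, Polynomial.natDegree_X_pow] at h2
  nlinarith

/-- **Condition 3 fails.** -/
theorem not_finite (h : ∀ G, Proper p Q G → ∃ W, GmMap p Q W ∧ Nonconst W ∧
    eval (fun j => (W j).eval 1) G ≠ 0) : ¬ FinitePointedMaps p Q := by
  rintro ⟨G, hG, hf⟩
  obtain ⟨W, hW, ⟨s, hs, hne⟩, hWG⟩ := h G hG
  have hfin := hf _ (hW.1 1 one_ne_zero) hWG
  let φ : ℕ → ({t : ℂ // t ≠ 0} → Set (Fin (n + 1) → ℂ)) := fun N t =>
    {y | Same y fun j => (pw W (N + 1) j).eval t}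
  have hφ : ∀ N, φ N ∈ PointedMaps p Q fun j => (W j).eval 1 := fun N =>
    ⟨pw W (N + 1), hW.powers (Nat.succ_pos _), by
      rw [pw_eval, one_pow]
      exact Same.refl _, fun t => rfl⟩
  have hnotinj : ¬ Function.Injective φ := by
    intro hinj
    exact (Set.infinite_range_of_injective hinj) (hfin.subset (by
      rintro _ ⟨N, rfl⟩
      exact hφ N))
  apply hnotinj
  intro N M hNM
  by_contra hne'
  -- two exponents
  wlog hlt : N < M generalizing N M
  · exact this hNM.symm (Ne.symm hne') (by omega)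
  have h1 : ∀ z : ℂ, Same (fun j => (W j).eval (Complex.exp ((N + 1 : ℕ) * z)))
      fun j => (W j).eval (Complex.exp ((M + 1 : ℕ) * z)) := by
    intro z
    have h2 : φ N ⟨Complex.exp z, Complex.exp_ne_zero z⟩ =
        φ M ⟨Complex.exp z, Complex.exp_ne_zero z⟩ := by rw [hNM]
    have h3 : (fun j => (pw W (N + 1) j).eval (Complex.exp z)) ∈
        φ N ⟨Complex.exp z, Complex.exp_ne_zero z⟩ := Same.refl _
    rw [h2] at h3
    have h4 : Same (fun j => (pw W (N + 1) j).eval (Complex.exp z))
      fun j => (pw W (M + 1) j).eval (Complex.exp z) := h3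
    rw [pw_eval, pw_eval, ← Complex.exp_nat_mul, ← Complex.exp_nat_mul] at h4
    exact h4
  let f : ℂ → Fin (n + 1) → ℂ := fun z j => (W j).eval (Complex.exp z)
  let r : ℂ := ((N + 1 : ℕ) : ℂ) / ((M + 1 : ℕ) : ℂ)
  have hM0 : ((M + 1 : ℕ) : ℂ) ≠ 0 := Nat.cast_ne_zero.2 (by omega)
  have h2 : ∀ z, Same (f (r * z)) (f z) := by
    intro z
    have h3 := h1 (z / ((M + 1 : ℕ) : ℂ))
    have e1 : ((N + 1 : ℕ) : ℂ) * (z / ((M + 1 : ℕ) : ℂ)) = r * z := by
      simp only [r]
      ring
    have e2 : ((M + 1 : ℕ) : ℂ) * (z / ((M + 1 : ℕ) : ℂ)) = z := by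
      field_simp
    rw [e1, e2] at h3
    exact h3
  have h3 : ∀ (k : ℕ) z, Same (f (r ^ k * z)) (f z) := by
    intro k
    induction k with
    | zero => intro z; rw [pow_zero, one_mul]; exact Same.refl _
    | succ k ih =>
      intro z
      have h4 := h2 (r ^ k * z)
      rw [← mul_assoc, ← pow_succ'] at h4
      exact h4.trans (ih z)
  have hr : ‖r‖ < 1 := by
    simp only [r]
    rw [norm_div, Complex.norm_natCast, Complex.norm_natCast, div_lt_one (by positivity)]
    exact_mod_cast Nat.succ_lt_succ hlt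
  have hlim : ∀ z : ℂ, Filter.Tendsto (fun k : ℕ => r ^ k * z) Filter.atTop (nhds 0) := by
    intro z
    have := (tendsto_pow_atTop_nhds_zero_of_norm_lt_one hr).mul_const z
    rwa [zero_mul] at this
  have hcont : ∀ j, Continuous fun z => f z j := fun j =>
    (W j).continuous.comp Complex.continuous_exp
  have hf0 : ∀ z, f z ≠ 0 := fun z => (hW.1 _ (Complex.exp_ne_zero z)).1
  obtain ⟨a, ha⟩ := exists_exp hs
  apply hne
  have h4 : Same (f a) (f 0) := by
    refine same_of_minor (hf0 _) (hf0 _) fun i j => ?_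
    have l1 : Filter.Tendsto (fun k : ℕ => f a i * f (r ^ k * a) j) Filter.atTop
        (nhds (f a i * f 0 j)) :=
      (((hcont j).tendsto 0).comp (hlim a)).const_mul _
    have l2 : Filter.Tendsto (fun k : ℕ => f a j * f (r ^ k * a) i) Filter.atTop
        (nhds (f a j * f 0 i)) :=
      (((hcont i).tendsto 0).comp (hlim a)).const_mul _
    refine tendsto_nhds_unique l1 (l2.congr fun k => ?_)
    exact (h3 k a).symm.minor j i
  have e1 : f a = fun j => (W j).eval s := by
    funext j
    simp only [f, ha]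
  have e2 : f 0 = fun j => (W j).eval 1 := by
    funext j
    simp only [f, Complex.exp_zero]
  rw [e1, e2] at h4
  exact h4

/-- **Condition 1 fails.** -/
theorem not_kobayashi (h : ∀ G, Proper p Q G → ∃ W, GmMap p Q W ∧ Nonconst W ∧
    eval (fun j => (W j).eval 1) G ≠ 0) : ¬ PseudoKobayashi p Q := by
  rintro ⟨G, hG, hf⟩
  obtain ⟨W, hW, ⟨s, hs, hne⟩, hWG⟩ := h G hG
  obtain ⟨a, ha⟩ := exists_exp hs
  have h1 := hf _ (hW.1 s hs) _ (hW.1 1 one_ne_zero) hne (Or.inr hWG)
  apply h1.ne'
  refine le_antisymm ?_ zero_le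
  -- the discs of radius `R`
  have key : ∀ R : ℝ, 1 < R → kobayashi p Q (fun j => (W j).eval s) (fun j => (W j).eval 1) ≤
      ENNReal.ofReal (Real.log ((1 + R⁻¹) / (1 - R⁻¹))) := by
    intro R hR
    have hR0 : (0 : ℝ) < R := by linarith
    let f : Fin 1 → ℂ → Fin (n + 1) → ℂ := fun _ z j =>
      (W j).eval (Complex.exp (a * (1 - R * z)))
    let b : Fin 1 → ℂ := fun _ => ((R⁻¹ : ℝ) : ℂ)
    let z : Fin 2 → Fin (n + 1) → ℂ := ![fun j => (W j).eval s, fun j => (W j).eval 1]
    have hchain : IsChain p Q (fun j => (W j).eval s) (fun j => (W j).eval 1) f b z := by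
      refine ⟨fun _ => ?_, fun _ t _ => hW.1 _ (Complex.exp_ne_zero _), fun _ => ?_, fun i => ?_,
        fun i => ?_, Same.refl _, Same.refl _⟩
      · refine Differentiable.differentiableOn ?_
        rw [differentiable_pi]
        intro j
        refine (W j).differentiable.comp (Complex.differentiable_exp.comp ?_)
        fun_prop
      · rw [mem_ball_zero_iff, Complex.norm_real, Real.norm_eq_abs, abs_of_pos (by positivity)]
        exact inv_lt_one_of_one_lt₀ hR
      · have : i = 0 := Subsingleton.elim _ _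
        subst this
        have e1 : f 0 0 = fun j => (W j).eval s := by
          funext j
          simp only [f]
          rw [mul_zero, sub_zero, mul_one, ha]
        rw [e1]
        exact Same.refl _
      · have : i = 0 := Subsingleton.elim _ _
        subst this
        have e1 : f 0 (b 0) = fun j => (W j).eval 1 := by
          funext j
          simp only [f, b]
          have : (1 : ℂ) - (R : ℂ) * ((R⁻¹ : ℝ) : ℂ) = 0 := by
            rw [← Complex.ofReal_mul, mul_inv_cancel₀ hR0.ne', Complex.ofReal_one, sub_self]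
          rw [this, mul_zero, Complex.exp_zero]
        rw [e1]
        exact Same.refl _
    unfold kobayashi
    refine iInf_le_of_le 1 (iInf_le_of_le f (iInf_le_of_le b (iInf_le_of_le z
      (iInf_le_of_le hchain ?_))))
    rw [Fin.sum_univ_one]
    have : ‖b 0‖ = R⁻¹ := by
      simp only [b]
      rw [Complex.norm_real, Real.norm_eq_abs, abs_of_pos (by positivity)]
    rw [this]
  have hlim : Filter.Tendsto (fun R : ℝ => ENNReal.ofReal (Real.log ((1 + R⁻¹) / (1 - R⁻¹))))
      Filter.atTop (nhds 0) := by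
    have l1 : Filter.Tendsto (fun R : ℝ => Real.log ((1 + R⁻¹) / (1 - R⁻¹))) Filter.atTop
        (nhds 0) := by
      have l2 : Filter.Tendsto (fun R : ℝ => (1 + R⁻¹) / (1 - R⁻¹)) Filter.atTop (nhds 1) := by
        have l3 : Filter.Tendsto (fun R : ℝ => 1 + R⁻¹) Filter.atTop (nhds (1 + 0)) :=
          tendsto_inv_atTop_zero.const_add 1
        have l4 : Filter.Tendsto (fun R : ℝ => 1 - R⁻¹) Filter.atTop (nhds (1 - 0)) :=
          tendsto_inv_atTop_zero.const_sub 1
        have l5 := l3.div l4 (by norm_num)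
        rw [add_zero, sub_zero, div_one] at l5
        exact l5
      have l6 := (Real.continuousAt_log one_ne_zero).tendsto.comp l2
      rwa [Real.log_one] at l6
    have l7 := (ENNReal.continuous_ofReal.tendsto 0).comp l1
    rwa [ENNReal.ofReal_zero] at l7
  exact ge_of_tendsto hlim ((Filter.eventually_gt_atTop 1).mono key)

/-- division by a power of the parameter -/
theorem exists_primitive {W : Fin (n + 1) → Polynomial ℂ} (hW : ∃ j, W j ≠ 0) :
    ∃ (a : ℕ) (V : Fin (n + 1) → Polynomial ℂ), (∀ j, W j = Polynomial.X ^ a * V j) ∧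
      ∃ j, (V j).eval 0 ≠ 0 := by
  classical
  obtain ⟨j0, hj0⟩ := hW
  have hex : ∃ a : ℕ, ∃ j, (W j).coeff a ≠ 0 := by
    by_contra hcon
    push Not at hcon
    exact hj0 (Polynomial.ext fun a => by rw [hcon a j0, Polynomial.coeff_zero])
  have hmin : ∀ b < Nat.find hex, ∀ j, (W j).coeff b = 0 := by
    intro b hb j
    by_contra hne
    exact Nat.find_min hex hb ⟨j, hne⟩
  obtain ⟨j1, hj1⟩ := Nat.find_spec hex
  have hdvd : ∀ j, Polynomial.X ^ Nat.find hex ∣ W j := fun j =>
    Polynomial.X_pow_dvd_iff.2 fun b hb => hmin b hb j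
  choose V hV using hdvd
  refine ⟨Nat.find hex, V, hV, j1, ?_⟩
  rw [← Polynomial.coeff_zero_eq_eval_zero]
  have h1 := hj1
  rw [hV j1] at h1
  have h2 : (Polynomial.X ^ Nat.find hex * V j1).coeff (0 + Nat.find hex) = (V j1).coeff 0 :=
    Polynomial.coeff_X_pow_mul _ _ _
  rw [zero_add] at h2
  rwa [h2] at h1

section pres

variable {m c d q : ℕ} {w : Fin m → ℕ} {F : Fin c → MvPolynomial (Fin m) ℂ} {e : Fin c → ℕ}
  {G : MvPolynomial (Fin m) ℂ}

theorem form_mem (A : Pres w F e G d p Q q) {R : MvPolynomial (Fin (n + 1)) ℂ} {r : ℕ}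
    (hR : R.IsHomogeneous r) : R ∈ p ↔ aeval A.Y R ∈ A.P := by
  rw [A.mem]
  constructor
  · intro h
    have h1 := h r
    rwa [homogeneousComponent_of_mem ((mem_homogeneousSubmodule _ _).2 hR), if_pos rfl] at h1
  · intro h i
    rw [homogeneousComponent_of_mem ((mem_homogeneousSubmodule _ _).2 hR)]
    split_ifs
    · exact h
    · rw [map_zero]
      exact A.P.zero_mem

theorem homog (A : Pres w F e G d p Q q) : Pool.Agent.W603.PV.IsHomog p := by
  intro H hH r
  rw [form_mem A (homogeneousComponent_isHomogeneous r H)]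
  exact (A.mem H).1 hH r

theorem base (A : Pres w F e G d p Q q) (hcount : ∑ j, e j + d < ∑ i, w i + min d 2)
    (G0 : MvPolynomial (Fin (n + 1)) ℂ) (hG0 : Proper p Q G0) :
    ∃ W, GmMap p Q W ∧ Nonconst W ∧ eval (fun j => (W j).eval 1) G0 ≠ 0 := by
  obtain ⟨⟨r, hr⟩, x0, hx0, hx0G⟩ := hG0
  have hP : A.P.IsPrime := A.comp.1.1
  have h1 : aeval A.Y G0 ∉ A.P := fun h => hx0G (hx0.2.1 _ ((form_mem A hr).2 h))
  obtain ⟨s, hs, hcurve⟩ := A.curve hcount
  have h2 : G * s * aeval A.Y G0 ∉ A.P := by
    intro h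
    rcases hP.mem_or_mem h with h | h
    · rcases hP.mem_or_mem h with h | h
      · exact A.off h
      · exact hs h
    · exact h1 h
  obtain ⟨x, hxP, hx⟩ := exists_point hP h2
  rw [map_mul, map_mul] at hx
  obtain ⟨W, l, b, hW, hb, hWY⟩ := hcurve ℂ x (fun j => hxP _ (A.comp.1.2
    (Ideal.subset_span ⟨j, rfl⟩))) (left_ne_zero_of_mul (left_ne_zero_of_mul hx))
    (right_ne_zero_of_mul (left_ne_zero_of_mul hx))
  have hY : aeval x (aeval A.Y G0) = eval (fun j => aeval x (A.Y j)) G0 := by
    have h3 := comp_aeval_apply (f := A.Y) (aeval x : MvPolynomial (Fin m) ℂ →ₐ[ℂ] ℂ) G0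
    rw [h3]
    exact congrArg (fun g => g G0) (coe_aeval_eq_eval (fun j => aeval x (A.Y j)))
  have hG1 : eval (fun j => (W j).eval 1) G0 ≠ 0 := by
    have h3 : (fun j => (W j).eval 1) = fun j => b * aeval x (A.Y j) := funext hWY
    have h4 := Pool.Agent.W603.PV.aeval_scale hr (fun j => aeval x (A.Y j)) b
    have h5 : ∀ z : Fin (n + 1) → ℂ, aeval z G0 = eval z G0 := fun z =>
      congrArg (fun g => g G0) (coe_aeval_eq_eval z)
    rw [h5, h5] at h4
    rw [h3, h4, ← hY]
    exact mul_ne_zero (pow_ne_zero _ hb) (right_ne_zero_of_mul hx)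
  have hW0 : ∃ j, W j ≠ 0 := by
    obtain ⟨j, hj⟩ := hW.ne 1 one_ne_zero
    exact ⟨j, fun h => hj (by rw [h, Polynomial.eval_zero])⟩
  obtain ⟨a, V, hV, hV0⟩ := exists_primitive hW0
  have hev : ∀ t : ℂ, t ≠ 0 → Same (fun j => (V j).eval t) fun j => (W j).eval t := by
    intro t ht
    refine ⟨(t ^ a)⁻¹, inv_ne_zero (pow_ne_zero _ ht), ?_⟩
    funext j
    rw [Pi.smul_apply, smul_eq_mul, hV j, Polynomial.eval_mul, Polynomial.eval_pow,
      Polynomial.eval_X, inv_mul_cancel_left₀ (pow_ne_zero _ ht)]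
  have hpts : ∀ {x y : Fin (n + 1) → ℂ}, Same x y → y ∈ Pts p Q → x ∈ Pts p Q := by
    rintro x y ⟨c, hc, rfl⟩ ⟨hy0, hyp, hyQ⟩
    refine ⟨smul_ne_zero hc hy0, fun H hH => ?_, ?_⟩
    · have h3 := Pool.Agent.W603.PV.aeval_scale_sum H y c
      have h4 : ∀ (R : MvPolynomial (Fin (n + 1)) ℂ) (z : Fin (n + 1) → ℂ),
          aeval z R = eval z R := fun R z => congrArg (fun g => g R) (coe_aeval_eq_eval z)
      simp only [h4] at h3
      change eval (fun j => c * y j) H = 0
      rw [h3]
      refine Finset.sum_eq_zero fun i _ => ?_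
      rw [hyp _ (homog A H hH i), mul_zero]
    · have h3 := Pool.Agent.W603.PV.aeval_scale A.homQ y c
      have h4 : ∀ (R : MvPolynomial (Fin (n + 1)) ℂ) (z : Fin (n + 1) → ℂ),
          aeval z R = eval z R := fun R z => congrArg (fun g => g R) (coe_aeval_eq_eval z)
      rw [h4, h4] at h3
      change eval (fun j => c * y j) Q ≠ 0
      rw [h3]
      exact mul_ne_zero (pow_ne_zero _ hc) hyQ
  have hWpts : ∀ t : ℂ, t ≠ 0 → (fun j => (W j).eval t) ∈ Pts p Q := fun t ht => hW.pts ht
  refine ⟨V, ⟨fun t ht => hpts (hev t ht) (hWpts t ht), hV0⟩, ?_, ?_⟩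
  · obtain ⟨i, j, s, hs, hne⟩ := hW.nonconst
    refine ⟨s, hs, fun h => hne ?_⟩
    have h3 := ((hev s hs).symm.trans h).trans (hev 1 one_ne_zero)
    have h4 := h3.minor i j
    rw [h4, mul_comm]
  · obtain ⟨c, hc, hcV⟩ := hev 1 one_ne_zero
    have h3 := Pool.Agent.W603.PV.aeval_scale hr (fun j => (W j).eval 1) c
    have h4 : ∀ (R : MvPolynomial (Fin (n + 1)) ℂ) (z : Fin (n + 1) → ℂ),
        aeval z R = eval z R := fun R z => congrArg (fun g => g R) (coe_aeval_eq_eval z)
    rw [h4, h4] at h3
    rw [hcV]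
    change eval (fun j => c * (W j).eval 1) G0 ≠ 0
    rw [h3]
    exact mul_ne_zero (pow_ne_zero _ hc) hG1

/-- **Condition 4 fails.** -/
theorem not_lgt (A : Pres w F e G d p Q q) (hcount : ∑ j, e j + d < ∑ i, w i + min d 2)
    {K : Type} [Field K] [Algebra ℂ K] {v : ℕ} {y : Fin (n + 1) → K} (hy : y ≠ 0)
    (hgen : coords ℂ y = ⊤) (hdim : Algebra.trdeg ℂ K = v)
    (hrel : ∀ H : MvPolynomial (Fin (n + 1)) ℂ, IsForm H → (aeval y H = 0 ↔ H ∈ p)) :
    ¬ LogGeneralType ℂ K v (Pool.Agent.W603.GR.OffQ Q q y) := by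
  have hP : A.P.IsPrime := A.comp.1.1
  obtain ⟨M, _, _, _, t, x, ht, hx⟩ := exists_generic A.P hP
  obtain ⟨s, hs, hcurve⟩ := A.curve hcount
  have hM : CharZero M := charZero_of_injective_algebraMap (algebraMap ℂ M).injective
  obtain ⟨W, l, b, hW, hb, hWY⟩ := hcurve M x (fun j => (hx _).2 (A.comp.1.2
    (Ideal.subset_span ⟨j, rfl⟩))) (fun h => A.off ((hx _).1 h)) fun h => hs ((hx _).1 h)
  refine hW.not_lgt ht A.homQ hy hgen hdim fun H hH => ?_
  refine (hrel H hH).trans ⟨fun h => hW.mem H h, fun h => ?_⟩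
  obtain ⟨r, hr⟩ := hH
  rw [form_mem A hr, ← hx]
  have h1 := aeval_eval W 1 H
  rw [h, Polynomial.eval_zero] at h1
  have h2 : (fun j => (W j).eval 1) = fun j => b * aeval x (A.Y j) := funext hWY
  rw [h2, Pool.Agent.W603.PV.aeval_scale hr] at h1
  have h3 := comp_aeval_apply (f := A.Y) (aeval x : MvPolynomial (Fin m) ℂ →ₐ[ℂ] M) H
  rw [h3]
  exact (mul_eq_zero.1 h1.symm).resolve_left (pow_ne_zero _ hb)

/-- **None of the five conditions holds.** Let `U` be the complement of the hypersurface `Q = 0` in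
the closed subvariety of `P^n` with the ideal `p`, which is presented as the image of the complement
of a hypersurface of degree `d` in a component of an intersection of hypersurfaces of degrees `e j`
in the weighted projective space with weights `1, w 1, ..., w m`, where
`∑ e j + d < ∑ w i + min (d, 2)`. The function field of `U` is `K`, and `y` is the generic point, in
homogeneous coordinates. Then `U` is not pseudo-Kobayashi hyperbolic, not pseudo-Brody hyperbolic,
does not have the property of finiteness of pointed maps (already for maps from the multiplicative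
group), is not of log-general type, and is not bounded modulo any proper closed subset (already for
maps from the multiplicative group). -/
theorem result (A : Pres w F e G d p Q q) (hcount : ∑ j, e j + d < ∑ i, w i + min d 2)
    {K : Type} [Field K] [Algebra ℂ K] {v : ℕ} {y : Fin (n + 1) → K} (hy : y ≠ 0)
    (hgen : coords ℂ y = ⊤) (hdim : Algebra.trdeg ℂ K = v)
    (hrel : ∀ H : MvPolynomial (Fin (n + 1)) ℂ, IsForm H → (aeval y H = 0 ↔ H ∈ p)) :
    ¬ PseudoKobayashi p Q ∧ ¬ PseudoBrody p Q ∧ ¬ FinitePointedMaps p Q ∧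
      ¬ LogGeneralType ℂ K v (Pool.Agent.W603.GR.OffQ Q q y) ∧ ¬ BoundedModulo p Q :=
  ⟨not_kobayashi (base A hcount), not_brody (base A hcount), not_finite (base A hcount),
    not_lgt A hcount hy hgen hdim hrel, not_bounded (base A hcount)⟩

end pres

end Pool.Agent.Results.MP_c69980_ag.LogCalabiYauPairs
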